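import Pool.Agent.Lib.MP_c9564b_pr.Count

/-! A sample size `k` against a size `l` with `k ≤ l ≤ n - k`. -/

open Finset

namespace Pool.Agent.FS.Wider69

open Pool.Agent.Lib.MP_c9564b_pr

variable {C : Type} [Fintype C] [DecidableEq C]

theorem wd_key (F : Set C) (r : C → C → Prop) (hr : Equivalence r) (Q : Finset C)
    (hQ : ∀ c, c ∈ Q ↔ ∃ c', c' ≠ c ∧ r c c') (a : ℕ) (hqa : 2 * a = #Q) (k : ℕ)
    [DecidablePred (Good F r)] :
    #((powersetCard k univ).filter (Good F r)) * (Fintype.card C - k - a) ≤
      #((powersetCard (k + 1) univ).filter (Good F r)) * (k + 1 - a) := by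
  classical
  set n := Fintype.card C with hn
  set s := (powersetCard k (univ : Finset C)).filter (Good F r) with hs
  set t := (powersetCard (k + 1) (univ : Finset C)).filter (Good F r) with ht
  apply Finset.card_mul_le_card_mul (fun A B => ∃ c, c ∉ Q ∧ c ∉ A ∧ B = insert c A)
  · intro A hA
    have hA' := mem_filter.1 hA
    have hcard : #A = k := (mem_powersetCard.1 hA'.1).2
    have h2 := (two_mul_inter F r hr Q hQ A hA'.2).2
    have h3 : n - k - a ≤ #(univ.filter fun c => c ∉ Q ∧ c ∉ A) := by
      have h4 := Finset.card_filter_add_card_filter_not (s := Aᶜ) (fun c => c ∈ Q)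
      have h5 : #(Aᶜ) = n - k := by rw [card_compl, hcard]
      have h6 : (Aᶜ.filter fun c => c ∈ Q) = Q.filter fun c => c ∉ A := by
        ext c; simp [and_comm]
      have h7 : (Aᶜ.filter fun c => ¬ c ∈ Q) = univ.filter fun c => c ∉ Q ∧ c ∉ A := by
        ext c; simp [and_comm]
      rw [h6, h7, h5] at h4
      omega
    refine h3.trans ?_
    apply Finset.card_le_card_of_injOn (fun c => insert c A)
    · intro c hc
      simp only [coe_filter, mem_univ, true_and, Set.mem_ofPred_eq] at hc
      simp only [mem_coe, mem_bipartiteAbove]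
      refine ⟨mem_filter.2 ⟨mem_powersetCard.2 ⟨subset_univ _, ?_⟩, ?_, ?_⟩, c, hc.1, hc.2, rfl⟩
      · rw [card_insert_of_notMem hc.2, hcard]
      · intro x hx
        exact mem_insert_of_mem (hA'.2.1 x hx)
      · intro x y hxy hiff
        by_contra hne
        have hx : x ≠ c := by
          rintro rfl
          exact hc.1 ((hQ _).2 ⟨y, Ne.symm hne, hxy⟩)
        have hy : y ≠ c := by
          rintro rfl
          exact hc.1 ((hQ _).2 ⟨x, hne, hr.symm hxy⟩)
        apply hne
        apply hA'.2.2 x y hxy
        simpa [hx, hy] using hiff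
    · intro c hc c' hc' hcc
      simp only [coe_filter, mem_univ, true_and, Set.mem_ofPred_eq] at hc hc'
      have : c ∈ insert c' A := by
        have h8 : insert c A = insert c' A := hcc
        rw [← h8]; exact mem_insert_self _ _
      rcases mem_insert.1 this with h | h
      · exact h
      · exact absurd h hc.2
  · intro B hB
    have hB' := mem_filter.1 hB
    have hcard : #B = k + 1 := (mem_powersetCard.1 hB'.1).2
    have h2 := (two_mul_inter F r hr Q hQ B hB'.2).1
    have h3 : #(B.filter fun c => c ∉ Q) ≤ k + 1 - a := by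
      have h4 := Finset.card_filter_add_card_filter_not (s := B) (fun c => c ∈ Q)
      have h6 : (B.filter fun c => c ∈ Q) = Q.filter fun c => c ∈ B := by
        ext c; simp [and_comm]
      rw [h6, hcard] at h4
      omega
    refine le_trans ?_ h3
    refine le_trans (card_le_card (t := (B.filter fun c => c ∉ Q).image fun c => B.erase c) ?_)
      card_image_le
    intro A hA
    obtain ⟨-, c, hc1, hc2, rfl⟩ := (mem_bipartiteBelow _).1 hA
    refine mem_image.2 ⟨c, mem_filter.2 ⟨mem_insert_self _ _, hc1⟩, ?_⟩
    exact erase_insert hc2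

theorem wd_chain (g : ℕ → ℕ) (m b : ℕ) (hg : ∀ j, g j * (m - j) ≤ g (j + 1) * (j + 1)) (j : ℕ)
    (hbj : b ≤ j) (hj : j ≤ m) : g b * m.choose j ≤ g j * m.choose b := by
  induction j, hbj using Nat.le_induction with
  | base => exact le_rfl
  | succ j hbj ih =>
    have h1 := ih (by omega)
    have h2 := Nat.choose_succ_right_eq m j
    apply Nat.le_of_mul_le_mul_right _ (Nat.add_one_pos j)
    calc g b * m.choose (j + 1) * (j + 1) = g b * m.choose j * (m - j) := by
          rw [mul_assoc, h2, mul_assoc]
      _ ≤ g j * m.choose b * (m - j) := Nat.mul_le_mul_right _ h1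
      _ = g j * (m - j) * m.choose b := by ring
      _ ≤ g (j + 1) * (j + 1) * m.choose b := Nat.mul_le_mul_right _ (hg j)
      _ = _ := by ring

theorem wd_compl (F : Set C) (r : C → C → Prop) (hr : Equivalence r) (k : ℕ)
    (hk : 2 * k ≤ Fintype.card C) [DecidablePred (Good F r)] :
    #((powersetCard k univ).filter (Good F r)) ≤
      #((powersetCard (Fintype.card C - k) univ).filter (Good F r)) := by
  classical
  set n := Fintype.card C with hn
  set Q : Finset C := univ.filter fun c => ∃ c', c' ≠ c ∧ r c c' with hQdef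
  have hQ : ∀ c, c ∈ Q ↔ ∃ c', c' ≠ c ∧ r c c' := by intro c; simp [hQdef]
  rcases ((powersetCard k (univ : Finset C)).filter (Good F r)).eq_empty_or_nonempty with
    h0 | ⟨A₀, hA₀⟩
  · simp [h0]
  have hA₀' := mem_filter.1 hA₀
  have hcard₀ : #A₀ = k := (mem_powersetCard.1 hA₀'.1).2
  set a := #(Q.filter fun c => c ∈ A₀) with ha
  have hqa : 2 * a = #Q := (two_mul_inter F r hr Q hQ A₀ hA₀'.2).1
  have hak : a ≤ k := by
    rw [← hcard₀]
    apply card_le_card
    intro c hc
    exact (mem_filter.1 hc).2
  have h1 := wd_chain (fun j => #((powersetCard (a + j) (univ : Finset C)).filter (Good F r)))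
    (n - 2 * a) (k - a) (fun j => by
      have := wd_key F r hr Q hQ a hqa (a + j)
      rwa [show Fintype.card C - (a + j) - a = n - 2 * a - j by omega,
        show a + j + 1 - a = j + 1 by omega] at this) (n - k - a) (by omega) (by omega)
  have h2 : (n - 2 * a).choose (n - k - a) = (n - 2 * a).choose (k - a) :=
    Nat.choose_symm_of_eq_add (by omega)
  rw [h2, show a + (k - a) = k by omega, show a + (n - k - a) = n - k by omega] at h1
  exact Nat.le_of_mul_le_mul_right h1 (Nat.choose_pos (by omega))

end Pool.Agent.FS.Wider69
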